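import Mathlib

set_option autoImplicit false
set_option linter.all false

open IsDedekindDomain NumberField nonZeroDivisors

namespace Pool.Agent.H88.PR

variable {L : Type} [Field L] [NumberField L] {n : ℕ} (𝔮 : Fin n → HeightOneSpectrum (𝓞 L))

/-- the group of elements which are units outside the `𝔮 j`. -/
def SU : Subgroup Lˣ where
  carrier := {u | ∀ 𝔓 : HeightOneSpectrum (𝓞 L), (∀ j, 𝔓 ≠ 𝔮 j) → 𝔓.valuation L (u : L) = 1}
  mul_mem' := by
    intro a b ha hb 𝔓 h
    rw [Units.val_mul, map_mul, ha 𝔓 h, hb 𝔓 h, one_mul]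
  one_mem' := by
    intro 𝔓 h
    simp
  inv_mem' := by
    intro a ha 𝔓 h
    rw [Units.val_inv_eq_inv_val, map_inv₀, ha 𝔓 h, inv_one]

theorem mem_SU {u : Lˣ} : u ∈ SU 𝔮 ↔ ∀ 𝔓 : HeightOneSpectrum (𝓞 L), (∀ j, 𝔓 ≠ 𝔮 j) →
    𝔓.valuation L (u : L) = 1 := Iff.rfl

abbrev MM := Additive (SU 𝔮)

/-- valuations. -/
noncomputable def fM : MM 𝔮 →ₗ[ℤ] (Fin n → ℤ) :=
  AddMonoidHom.toIntLinearMap
    { toFun := fun u j => WithZero.log ((𝔮 j).valuation L ((u.toMul : Lˣ) : L))
      map_zero' := by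
        funext j
        simp
      map_add' := by
        intro a b
        funext j
        simp only [toMul_add, Subgroup.coe_mul, Units.val_mul, map_mul, Pi.add_apply]
        rw [WithZero.log_mul]
        · exact (Valuation.ne_zero_iff _).2 (Units.ne_zero _)
        · exact (Valuation.ne_zero_iff _).2 (Units.ne_zero _) }

theorem fM_apply (u : MM 𝔮) (j : Fin n) :
    fM 𝔮 u j = WithZero.log ((𝔮 j).valuation L ((u.toMul : Lˣ) : L)) := rfl

/-- units to S-units. -/
noncomputable def gU : Additive (𝓞 L)ˣ →ₗ[ℤ] MM 𝔮 :=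
  AddMonoidHom.toIntLinearMap
    { toFun := fun u => Additive.ofMul ⟨Units.map (algebraMap (𝓞 L) L).toMonoidHom u.toMul, by
        intro 𝔓 h
        change 𝔓.valuation L (algebraMap (𝓞 L) L (u.toMul : 𝓞 L)) = 1
        rw [HeightOneSpectrum.valuation_eq_one_iff_notMem]
        intro hm
        exact 𝔓.isPrime.ne_top (Ideal.eq_top_of_isUnit_mem _ hm (Units.isUnit _))⟩
      map_zero' := by
        apply Additive.toMul.injective
        ext
        simp
      map_add' := by
        intro a b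
        apply Additive.toMul.injective
        ext
        simp }

theorem gU_val (u : Additive (𝓞 L)ˣ) :
    (((gU 𝔮 u).toMul : Lˣ) : L) = algebraMap (𝓞 L) L (u.toMul : 𝓞 L) := rfl

theorem log_eq_zero {x : WithZero (Multiplicative ℤ)} (hx : x ≠ 0) (h : WithZero.log x = 0) :
    x = 1 := by
  have := WithZero.exp_log hx
  rw [h] at this
  simpa using this.symm

theorem val_one_of_ker {u : MM 𝔮} (hu : fM 𝔮 u = 0) (𝔓 : HeightOneSpectrum (𝓞 L)) :
    𝔓.valuation L ((u.toMul : Lˣ) : L) = 1 := by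
  by_cases h : ∀ j, 𝔓 ≠ 𝔮 j
  · exact u.toMul.2 𝔓 h
  · push Not at h
    obtain ⟨j, rfl⟩ := h
    have := congrFun hu j
    rw [fM_apply] at this
    exact log_eq_zero ((Valuation.ne_zero_iff _).2 (Units.ne_zero _)) this

theorem ker_le : LinearMap.ker (fM 𝔮) ≤ LinearMap.range (gU 𝔮) := by
  intro u hu
  rw [LinearMap.mem_ker] at hu
  have h1 := val_one_of_ker 𝔮 hu
  have h2 : ((-u : MM 𝔮).toMul : Lˣ) = ((u.toMul : Lˣ))⁻¹ := rfl
  obtain ⟨a, ha⟩ := HeightOneSpectrum.mem_integers_of_valuation_le_one L ((u.toMul : Lˣ) : L)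
    (fun v => (h1 v).le)
  obtain ⟨b, hb⟩ := HeightOneSpectrum.mem_integers_of_valuation_le_one L
    (((u.toMul : Lˣ)⁻¹ : Lˣ) : L) (fun v => by
      rw [Units.val_inv_eq_inv_val, map_inv₀, h1 v, inv_one])
  have hab : a * b = 1 := by
    apply FaithfulSMul.algebraMap_injective (𝓞 L) L
    rw [map_mul, map_one, ha, hb]
    exact Units.mul_inv _
  refine ⟨Additive.ofMul ⟨a, b, hab, by rw [mul_comm]; exact hab⟩, ?_⟩
  apply Additive.toMul.injective
  ext
  rw [gU_val]
  exact ha

instance finM : Module.Finite ℤ (MM 𝔮) := by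
  rw [Module.finite_def]
  apply Submodule.fg_of_fg_map_of_fg_inf_ker (fM 𝔮)
  · exact IsNoetherian.noetherian _
  · rw [top_inf_eq]
    have : IsNoetherian ℤ (LinearMap.range (gU 𝔮)) := inferInstance
    have h2 := (isNoetherian_submodule.1 this) (LinearMap.ker (fM 𝔮)) (ker_le 𝔮)
    exact h2


theorem exists_gen (v : HeightOneSpectrum (𝓞 L)) : ∃ (h : ℕ) (x : 𝓞 L), 0 < h ∧ x ≠ 0 ∧
    v.asIdeal ^ h = Ideal.span {x} := by
  classical
  have hv : v.asIdeal ∈ (Ideal (𝓞 L))⁰ := mem_nonZeroDivisors_of_ne_zero v.ne_bot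
  let c : ClassGroup (𝓞 L) := ClassGroup.mk0 ⟨v.asIdeal, hv⟩
  have hc : c ^ Fintype.card (ClassGroup (𝓞 L)) = 1 := pow_card_eq_one
  rw [← map_pow, ClassGroup.mk0_eq_one_iff] at hc
  obtain ⟨x, hx⟩ := hc.principal
  refine ⟨Fintype.card (ClassGroup (𝓞 L)), x, Fintype.card_pos, ?_, hx⟩
  rintro rfl
  have : v.asIdeal ^ Fintype.card (ClassGroup (𝓞 L)) = ⊥ := by
    refine hx.trans ?_
    simp
  exact v.ne_bot (pow_eq_zero_iff (Fintype.card_pos.ne') |>.1 this)

theorem norm_sq_ideal (I : Ideal (𝓞 L)) (hI : I ≠ ⊥)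
    (h : ∀ v : HeightOneSpectrum (𝓞 L), I ≤ v.asIdeal → ∃ k : ℕ, Ideal.absNorm v.asIdeal = k ^ 2) :
    IsSquare (Ideal.absNorm I) := by
  classical
  have h1 : (UniqueFactorizationMonoid.normalizedFactors I).prod = I := by
    have := UniqueFactorizationMonoid.prod_normalizedFactors hI
    exact associated_iff_eq.1 this
  rw [← h1, map_multiset_prod]
  apply Multiset.prod_induction
  · intro a b ha hb
    exact ha.mul hb
  · exact IsSquare.one
  · intro a ha
    rw [Multiset.mem_map] at ha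
    obtain ⟨P, hP, rfl⟩ := ha
    have hPp := UniqueFactorizationMonoid.prime_of_normalized_factor P hP
    have hPd := UniqueFactorizationMonoid.dvd_of_mem_normalizedFactors hP
    obtain ⟨k, hk⟩ := h ⟨P, Ideal.isPrime_of_prime hPp, hPp.ne_zero⟩ (Ideal.dvd_iff_le.1 hPd)
    exact ⟨k, by rw [← sq]; exact hk⟩

/-- rational square test for integral elements. -/
theorem norm_sq_int (y : 𝓞 L) (hy : y ≠ 0)
    (h : ∀ v : HeightOneSpectrum (𝓞 L), y ∈ v.asIdeal → ∃ k : ℕ, Ideal.absNorm v.asIdeal = k ^ 2) :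
    IsSquare |Algebra.norm ℚ (y : L)| := by
  have h1 := norm_sq_ideal (Ideal.span {y}) (by simpa using hy)
    (fun v hv => h v (hv (Ideal.mem_span_singleton_self y)))
  rw [Ideal.absNorm_span_singleton] at h1
  obtain ⟨k, hk⟩ := h1
  refine ⟨(k : ℚ), ?_⟩
  have h2 : Algebra.norm ℚ (y : L) = ((Algebra.norm ℤ y : ℤ) : ℚ) :=
    (Algebra.coe_norm_int y).symm
  rw [h2, ← Int.cast_abs, Int.abs_eq_natAbs, hk]
  push_cast
  rfl


/-- absolute value of the norm, as a monoid hom. -/
theorem abs_norm_mul (x y : L) : |Algebra.norm ℚ (x * y)| = |Algebra.norm ℚ x| * |Algebra.norm ℚ y| := by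
  rw [map_mul, abs_mul]

theorem norm_sq_SU (hq : ∀ i, ∃ k : ℕ, Ideal.absNorm (𝔮 i).asIdeal = k ^ 2) (u : Lˣ)
    (hu : u ∈ SU 𝔮) : IsSquare |Algebra.norm ℚ (u : L)| := by
  classical
  choose h x hh hx0 hx using fun j => exists_gen (𝔮 j)
  -- valuations of x
  have hmem : ∀ (v : HeightOneSpectrum (𝓞 L)) j, x j ∈ v.asIdeal → v = 𝔮 j := by
    intro v j hv
    have h1 : (𝔮 j).asIdeal ^ h j ≤ v.asIdeal := by
      rw [hx j, Ideal.span_singleton_le_iff_mem]
      exact hv
    have h2 := v.isPrime.le_of_pow_le h1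
    ext1
    exact ((𝔮 j).isMaximal.eq_of_le v.isPrime.ne_top h2).symm
  let X : 𝓞 L := ∏ j, x j
  have hX0 : X ≠ 0 := Finset.prod_ne_zero_iff.2 (fun j _ => hx0 j)
  have hXL : (X : L) ≠ 0 := by
    intro h
    apply hX0
    apply FaithfulSMul.algebraMap_injective (𝓞 L) L
    rw [map_zero]
    exact h
  have hXmem : ∀ j, X ∈ (𝔮 j).asIdeal := by
    intro j
    have h1 : x j ∈ (𝔮 j).asIdeal := by
      have : Ideal.span {x j} ≤ (𝔮 j).asIdeal := by
        rw [← hx j]
        exact Ideal.pow_le_self (hh j).ne'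
      exact this (Ideal.mem_span_singleton_self _)
    exact Ideal.mem_of_dvd _ (Finset.dvd_prod_of_mem _ (Finset.mem_univ j)) h1
  have hXv : ∀ v : HeightOneSpectrum (𝓞 L), X ∈ v.asIdeal → ∃ j, v = 𝔮 j := by
    intro v hv
    obtain ⟨j, -, hj⟩ := (v.isPrime.prod_mem_iff).1 hv
    exact ⟨j, hmem v j hj⟩
  have hXsq : IsSquare |Algebra.norm ℚ (X : L)| := by
    apply norm_sq_int X hX0
    intro v hv
    obtain ⟨j, rfl⟩ := hXv v hv
    exact hq j
  -- clear denominators
  have hex : ∃ m : ℕ, ∀ j, (𝔮 j).valuation L ((u : L) * (X : L) ^ m) ≤ 1 := by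
    have h1 : ∀ j, ∃ m : ℕ, (𝔮 j).valuation L (X : L) ^ m ≤ ((𝔮 j).valuation L (u : L))⁻¹ := by
      intro j
      have hlt : (𝔮 j).valuation L (X : L) < 1 := by
        rw [HeightOneSpectrum.valuation_lt_one_iff_mem]
        exact hXmem j
      have hne : ((𝔮 j).valuation L (u : L))⁻¹ ≠ 0 :=
        inv_ne_zero ((Valuation.ne_zero_iff _).2 (Units.ne_zero _))
      obtain ⟨m, hm⟩ := exists_pow_lt₀ hlt (Units.mk0 _ hne)
      exact ⟨m, hm.le⟩
    choose m hm using h1
    refine ⟨∑ j, m j, fun j => ?_⟩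
    have hlt : (𝔮 j).valuation L (X : L) ≤ 1 := HeightOneSpectrum.valuation_le_one _ _
    have h2 : (𝔮 j).valuation L (X : L) ^ (∑ j, m j) ≤ ((𝔮 j).valuation L (u : L))⁻¹ :=
      (pow_le_pow_right_of_le_one' hlt (Finset.single_le_sum (fun _ _ => Nat.zero_le _)
        (Finset.mem_univ j))).trans (hm j)
    rw [map_mul, map_pow]
    have hne : (𝔮 j).valuation L (u : L) ≠ 0 := (Valuation.ne_zero_iff _).2 (Units.ne_zero _)
    calc (𝔮 j).valuation L (u : L) * (𝔮 j).valuation L (X : L) ^ (∑ j, m j)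
        ≤ (𝔮 j).valuation L (u : L) * ((𝔮 j).valuation L (u : L))⁻¹ := by gcongr
      _ = 1 := mul_inv_cancel₀ hne
  obtain ⟨m, hm⟩ := hex
  have hint : ∀ v : HeightOneSpectrum (𝓞 L), v.valuation L ((u : L) * (X : L) ^ m) ≤ 1 := by
    intro v
    by_cases hv : ∀ j, v ≠ 𝔮 j
    · rw [map_mul, hu v hv, one_mul, map_pow]
      exact pow_le_one' (HeightOneSpectrum.valuation_le_one _ _) _
    · push Not at hv
      obtain ⟨j, rfl⟩ := hv
      exact hm j
  obtain ⟨y, hy⟩ := HeightOneSpectrum.mem_integers_of_valuation_le_one L _ hint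
  have hy0 : y ≠ 0 := by
    rintro rfl
    rw [map_zero] at hy
    exact mul_ne_zero (Units.ne_zero u) (pow_ne_zero m hXL) hy.symm
  have hysq : IsSquare |Algebra.norm ℚ (y : L)| := by
    apply norm_sq_int y hy0
    intro v hv
    by_cases hv' : ∀ j, v ≠ 𝔮 j
    · exfalso
      have h1 : v.valuation L (algebraMap (𝓞 L) L y) = 1 := by
        rw [hy, map_mul, hu v hv', one_mul, map_pow]
        have : v.valuation L (X : L) = 1 := by
          change v.valuation L (algebraMap (𝓞 L) L X) = 1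
          rw [HeightOneSpectrum.valuation_eq_one_iff_notMem]
          intro h
          obtain ⟨j, hj⟩ := hXv v h
          exact hv' j hj
        rw [this, one_pow]
      rw [HeightOneSpectrum.valuation_eq_one_iff_notMem] at h1
      exact h1 hv
    · push Not at hv'
      obtain ⟨j, rfl⟩ := hv'
      exact hq j
  have h3 : |Algebra.norm ℚ (y : L)| = |Algebra.norm ℚ (u : L)| * |Algebra.norm ℚ (X : L)| ^ m := by
    have : (y : L) = (u : L) * (X : L) ^ m := hy
    rw [this, map_mul, abs_mul, map_pow, abs_pow]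
  have h4 : |Algebra.norm ℚ (u : L)| = |Algebra.norm ℚ (y : L)| / |Algebra.norm ℚ (X : L)| ^ m := by
    rw [h3, mul_div_assoc, div_self, mul_one]
    apply pow_ne_zero
    rw [abs_ne_zero]
    exact Algebra.norm_ne_zero_iff.2 hXL
  rw [h4]
  exact hysq.div (hXsq.pow m)


theorem exists_unit_inf (hd : Module.finrank ℚ L = 3) : ∃ u : Additive (𝓞 L)ˣ,
    ∀ k : ℤ, k • u = 0 → k = 0 := by
  have h1 := NumberField.InfinitePlace.card_add_two_mul_card_eq_rank L
  have h2 := NumberField.InfinitePlace.card_eq_nrRealPlaces_add_nrComplexPlaces L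
  have h3 : 0 < NumberField.Units.rank L := by
    unfold NumberField.Units.rank
    omega
  refine ⟨Additive.ofMul (NumberField.Units.fundSystem L ⟨0, h3⟩), ?_⟩
  intro k hk
  by_contra hk0
  have h4 := NumberField.Units.logEmbedding_fundSystem L ⟨0, h3⟩
  have h5 : k • NumberField.Units.logEmbedding L
      (Additive.ofMul (NumberField.Units.fundSystem L ⟨0, h3⟩)) = 0 := by
    rw [← map_zsmul, hk, map_zero]
  rw [h4] at h5
  rcases smul_eq_zero.1 h5 with h | h
  · exact hk0 h
  · apply (NumberField.Units.basisUnitLattice L).ne_zero ⟨0, h3⟩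
    exact Subtype.ext h

theorem gU_inj : Function.Injective (gU 𝔮) := by
  intro a b hab
  apply Additive.toMul.injective
  ext
  have := congrArg (fun u : MM 𝔮 => ((u.toMul : Lˣ) : L)) hab
  simpa [gU_val] using this

/-- quotient by torsion -/
abbrev QM := MM 𝔮 ⧸ Submodule.torsion ℤ (MM 𝔮)

theorem rank_le (hd : Module.finrank ℚ L = 3) (hinj : Function.Injective 𝔮) :
    n + 1 ≤ Module.finrank ℤ (QM 𝔮) := by
  classical
  choose h x hh hx0 hx using fun j => exists_gen (𝔮 j)
  have hmem : ∀ (v : HeightOneSpectrum (𝓞 L)) j, x j ∈ v.asIdeal → v = 𝔮 j := by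
    intro v j hv
    have h1 : (𝔮 j).asIdeal ^ h j ≤ v.asIdeal := by
      rw [hx j, Ideal.span_singleton_le_iff_mem]
      exact hv
    have h2 := v.isPrime.le_of_pow_le h1
    ext1
    exact ((𝔮 j).isMaximal.eq_of_le v.isPrime.ne_top h2).symm
  have hxmem : ∀ j, x j ∈ (𝔮 j).asIdeal := by
    intro j
    have : Ideal.span {x j} ≤ (𝔮 j).asIdeal := by
      rw [← hx j]
      exact Ideal.pow_le_self (hh j).ne'
    exact this (Ideal.mem_span_singleton_self _)
  have hxL : ∀ j, (x j : L) ≠ 0 := by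
    intro j h
    apply hx0 j
    apply FaithfulSMul.algebraMap_injective (𝓞 L) L
    rw [map_zero]
    exact h
  let xs : Fin n → MM 𝔮 := fun j => Additive.ofMul ⟨Units.mk0 (x j : L) (hxL j), by
    intro v hv
    change v.valuation L (algebraMap (𝓞 L) L (x j)) = 1
    rw [HeightOneSpectrum.valuation_eq_one_iff_notMem]
    intro hm
    exact hv j (hmem v j hm)⟩
  have hfx : ∀ j k, fM 𝔮 (xs j) k = 0 ↔ j ≠ k := by
    intro j k
    rw [fM_apply]
    change WithZero.log ((𝔮 k).valuation L (algebraMap (𝓞 L) L (x j))) = 0 ↔ j ≠ k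
    constructor
    · rintro h1 rfl
      have h2 := log_eq_zero ((Valuation.ne_zero_iff _).2 (hxL j)) h1
      rw [HeightOneSpectrum.valuation_eq_one_iff_notMem] at h2
      exact h2 (hxmem j)
    · intro hjk
      have : (𝔮 k).valuation L (algebraMap (𝓞 L) L (x j)) = 1 := by
        rw [HeightOneSpectrum.valuation_eq_one_iff_notMem]
        intro hm
        exact hjk (hinj (hmem _ j hm).symm)
      rw [this]
      exact WithZero.log_one
  obtain ⟨u, hu⟩ := exists_unit_inf hd
  have hfu : fM 𝔮 (gU 𝔮 u) = 0 := by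
    funext k
    rw [fM_apply, gU_val]
    have : (𝔮 k).valuation L (algebraMap (𝓞 L) L (u.toMul : 𝓞 L)) = 1 := by
      rw [HeightOneSpectrum.valuation_eq_one_iff_notMem]
      intro hm
      exact (𝔮 k).isPrime.ne_top (Ideal.eq_top_of_isUnit_mem _ hm (Units.isUnit _))
    rw [this]
    exact WithZero.log_one
  let w : Option (Fin n) → MM 𝔮 := fun o => o.elim (gU 𝔮 u) xs
  have hli : LinearIndependent ℤ (fun o => Submodule.Quotient.mk (p := Submodule.torsion ℤ (MM 𝔮)) (w o)) := by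
    rw [Fintype.linearIndependent_iff]
    intro g hg
    have h1 : Submodule.Quotient.mk (p := Submodule.torsion ℤ (MM 𝔮)) (∑ o, g o • w o) = 0 := by
      rw [← hg]
      rw [← Submodule.mkQ_apply, map_sum]
      simp only [map_smul, Submodule.mkQ_apply]
    rw [Submodule.Quotient.mk_eq_zero, Submodule.mem_torsion_iff] at h1
    obtain ⟨⟨a, ha⟩, ha2⟩ := h1
    have ha0 : a ≠ 0 := nonZeroDivisors.ne_zero ha
    have ha3 : a • (∑ o, g o • w o) = 0 := ha2
    rw [Fintype.sum_option] at ha3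
    change a • (g none • gU 𝔮 u + ∑ j, g (some j) • xs j) = 0 at ha3
    have hs : ∀ k, g (some k) = 0 := by
      intro k
      have h2 := congrFun (congrArg (fM 𝔮) ha3) k
      rw [map_smul, map_add, map_smul, hfu, smul_zero, zero_add, map_sum] at h2
      simp only [map_smul, Pi.smul_apply, Finset.sum_apply, map_zero, Pi.zero_apply,
        smul_eq_mul] at h2
      rw [Finset.sum_eq_single k] at h2
      · rcases mul_eq_zero.1 h2 with h3 | h3
        · exact absurd h3 ha0
        · rcases mul_eq_zero.1 h3 with h4 | h4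
          · exact h4
          · exact absurd rfl ((hfx k k).1 h4)
      · intro j _ hj
        rw [(hfx j k).2 hj, mul_zero]
      · intro h
        exact absurd (Finset.mem_univ _) h
    have hn : g none = 0 := by
      simp only [hs, zero_smul, Finset.sum_const_zero, add_zero] at ha3
      rw [smul_smul, ← map_smul, ← map_zero (gU 𝔮)] at ha3
      have := hu _ (gU_inj 𝔮 ha3)
      rcases mul_eq_zero.1 this with h | h
      · exact absurd h ha0
      · exact h
    intro o
    cases o with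
    | none => exact hn
    | some k => exact hs k
  have := hli.fintype_card_le_finrank
  simpa using this


theorem sq_cases {q : ℚ} (h : IsSquare |q|) : IsSquare q ∨ IsSquare (-q) := by
  rcases abs_choice q with h1 | h1
  · left
    rwa [h1] at h
  · right
    rwa [h1] at h

theorem sun (hd : Module.finrank ℚ L = 3) (hinj : Function.Injective 𝔮)
    (hq : ∀ i, ∃ k : ℕ, Ideal.absNorm (𝔮 i).asIdeal = k ^ 2) :
    ∃ x : Fin (n + 1) → L, (∀ i, x i ≠ 0 ∧ IsSquare (Algebra.norm ℚ (x i)) ∧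
      ∀ 𝔓 : HeightOneSpectrum (𝓞 L), (∀ j, 𝔓 ≠ 𝔮 j) → 𝔓.valuation L (x i) = 1) ∧
    ∀ c : Finset (Fin (n + 1)), IsSquare (∏ i ∈ c, x i) → c = ∅ := by
  classical
  haveI : Module.IsTorsionFree ℤ (QM 𝔮) := Submodule.QuotientTorsion.instIsTorsionFree
  haveI : Module.Free ℤ (QM 𝔮) := Module.free_of_finite_type_torsion_free'
  let b := Module.finBasis ℤ (QM 𝔮)
  have hr := rank_le 𝔮 hd hinj
  choose g hg using fun i : Fin (n + 1) =>
    Submodule.Quotient.mk_surjective (Submodule.torsion ℤ (MM 𝔮)) (b (Fin.castLE hr i))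
  have hex : ∀ i, ∃ y : MM 𝔮, Submodule.Quotient.mk (p := Submodule.torsion ℤ (MM 𝔮)) y =
      b (Fin.castLE hr i) ∧ IsSquare (Algebra.norm ℚ ((y.toMul : Lˣ) : L)) := by
    intro i
    rcases sq_cases (norm_sq_SU 𝔮 hq _ (g i).toMul.2) with h | h
    · exact ⟨g i, hg i, h⟩
    · have hm1 : (-1 : Lˣ) ∈ SU 𝔮 := by
        intro v _
        simp
      let e : MM 𝔮 := Additive.ofMul ⟨-1, hm1⟩
      have he : Submodule.Quotient.mk (p := Submodule.torsion ℤ (MM 𝔮)) e = 0 := by
        rw [Submodule.Quotient.mk_eq_zero, Submodule.mem_torsion_iff]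
        refine ⟨⟨2, by simp⟩, ?_⟩
        apply Additive.toMul.injective
        ext
        change (((-1 : Lˣ) ^ (2 : ℤ) : Lˣ) : L) = 1
        norm_num
      refine ⟨e + g i, ?_, ?_⟩
      · rw [Submodule.Quotient.mk_add, he, zero_add, hg i]
      · have h1 : (((e + g i).toMul : Lˣ) : L) = -(((g i).toMul : Lˣ) : L) := by
          change ((-1 : Lˣ) : L) * (((g i).toMul : Lˣ) : L) = _
          simp
        rw [h1]
        have h2 : Algebra.norm ℚ (-(((g i).toMul : Lˣ) : L)) = -Algebra.norm ℚ (((g i).toMul : Lˣ) : L) := by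
          have h3 : -(((g i).toMul : Lˣ) : L) = algebraMap ℚ L (-1) * (((g i).toMul : Lˣ) : L) := by
            simp
          rw [h3, map_mul, Algebra.norm_algebraMap, hd]
          norm_num
        rw [h2]
        exact h
  choose y hy1 hy2 using hex
  refine ⟨fun i => (((y i).toMul : Lˣ) : L), fun i => ⟨Units.ne_zero _, hy2 i, (y i).toMul.2⟩, ?_⟩
  intro c hc
  obtain ⟨z, hz⟩ := hc
  have hz0 : z ≠ 0 := by
    rintro rfl
    rw [mul_zero] at hz
    exact Finset.prod_ne_zero_iff.2 (fun i _ => Units.ne_zero _) hz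
  have hzS : Units.mk0 z hz0 ∈ SU 𝔮 := by
    intro v hv
    rw [Units.val_mk0]
    have h1 := congrArg (v.valuation L) hz
    rw [map_prod, map_mul] at h1
    rw [Finset.prod_eq_one (fun i _ => (y i).toMul.2 v hv)] at h1
    have hz1 : v.valuation L z ≠ 0 := (Valuation.ne_zero_iff _).2 hz0
    have h2 := congrArg WithZero.log h1
    rw [WithZero.log_mul hz1 hz1, WithZero.log_one] at h2
    exact log_eq_zero hz1 (by omega)
  let Z : MM 𝔮 := Additive.ofMul ⟨Units.mk0 z hz0, hzS⟩
  have hsum : ∑ i ∈ c, y i = (2 : ℤ) • Z := by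
    apply Additive.toMul.injective
    ext
    rw [toMul_sum, Subgroup.val_finsetProd, Units.coe_prod]
    refine hz.trans ?_
    change z * z = ((Units.mk0 z hz0 ^ (2 : ℤ) : Lˣ) : L)
    rw [zpow_ofNat, Units.val_pow_eq_pow_val, Units.val_mk0, sq]
  have h1 := congrArg (Submodule.mkQ (Submodule.torsion ℤ (MM 𝔮))) hsum
  rw [map_sum, map_smul] at h1
  simp only [Submodule.mkQ_apply, hy1] at h1
  by_contra hne
  obtain ⟨i, hi⟩ := Finset.nonempty_iff_ne_empty.2 hne
  have h2 := congrArg (fun z => b.repr z (Fin.castLE hr i)) h1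
  simp only [map_sum, map_smul, Module.Basis.repr_self, Finsupp.coe_finset_sum, Finset.sum_apply,
    Finsupp.coe_smul, Pi.smul_apply] at h2
  rw [Finset.sum_eq_single i] at h2
  · rw [Finsupp.single_eq_same, smul_eq_mul] at h2
    omega
  · intro j _ hj
    rw [Finsupp.single_apply, if_neg]
    intro h
    exact hj (Fin.castLE_injective hr h)
  · intro h
    exact absurd hi h

end Pool.Agent.H88.PR
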