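import Pool.Agent.H62.PR.Stm
import Pool.Agent.H88.PR.Sun

set_option autoImplicit false
set_option linter.all false

namespace Pool.Agent.H88.PR

theorem sun_fin : Pool.Agent.H62.PR.S_SUN := by
  intro L _ _ hd n 𝔮 hinj hq
  exact sun 𝔮 hd hinj hq

end Pool.Agent.H88.PR
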