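import Pool.Agent.H62.PR.Stm
import Pool.Graph.R_pool_sql_team_seeded_63374d34.N951.PV.PT2
import Pool.Graph.R_pool_sql_team_seeded_63374d34.N907.PV.NF2

/-!
Project PR (helper62), part L2I (helper88): the local condition at `2` has index two.
-/

set_option autoImplicit false
set_option linter.all false

open Polynomial
open scoped Classical

namespace Pool.Agent.H88.PR

open Pool.Agent.N922.PQ Pool.Agent.N803.PQ Pool.Agent.N951.PV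

theorem nrm_two : ‖(2 : ℚ_[2])‖ = 1 / 2 := by
  have := Padic.norm_p (p := 2)
  rw [Nat.cast_ofNat] at this
  rw [this]
  norm_num

theorem c2 : ((2 : ℤ_[2]) : ℚ_[2]) = 2 := rfl

theorem c4 : ((4 : ℤ_[2]) : ℚ_[2]) = 4 := rfl

theorem exists_int (q : ℚ) (hq : Odd q.den) : ∃ z : ℤ_[2], (z : ℚ_[2]) = (q : ℚ_[2]) := by
  have h : ‖(q : ℚ_[2])‖ ≤ 1 := by
    apply Padic.norm_rat_le_one
    intro h
    exact (Nat.not_even_iff_odd.2 hq) (even_iff_two_dvd.2 h)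
  exact ⟨⟨(q : ℚ_[2]), h⟩, rfl⟩

/-- the classes which come from points -/
def Cl (a g₁ g₂ : ℤ) : Prop :=
  (Even g₁ ∧ Even g₂) ∨ ((4 : ℤ) ∣ 2 * g₁ - (1 - a) ∧ (4 : ℤ) ∣ 2 * g₂ - (3 - a))

theorem loc2_of {L : Type} [Field L] [NumberField L] {a b : ℤ} {θ : L} (hc : IsCub a b θ)
    (ha : Odd a) (hab : (4 : ℤ) ∣ a - b) (x c : L) (g₁ g₂ : ℤ) (R s t : ℚ) (zr zs zt : ℤ_[2])
    (hR : (R : ℚ_[2]) - ((g₁ * (1 + g₂) : ℤ) : ℚ_[2]) = 2 * (zr : ℚ_[2]))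
    (hs : (s : ℚ_[2]) = zs) (ht : (t : ℚ_[2]) = zt)
    (hα : x = c ^ 2 * aeval θ (pol ℚ g₁ g₂ R s t)) (h5 : Cl a g₁ g₂) : Loc2 a b θ x := by
  obtain ⟨k, hk⟩ := hc.exists_poly c
  set P : ℚ[X] := pol ℚ g₁ g₂ R s t with hP
  have e1 : aeval θ (k ^ 2 * P) = x := by
    rw [map_mul, map_pow, hk, hα]
  have h6 := pt2 a b ha hab g₁ g₂ ((R : ℚ) : ℚ_[2]) s t (by
    rw [hR, norm_mul, nrm_two]
    have := zr.2
    linarith) (by rw [hs]; exact zs.2) (by rw [ht]; exact zt.2) h5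
  rw [← pol_map, ← hP] at h6
  intro h' hh'
  have h7 : PL ℚ_[2] a b ((k.map (algebraMap ℚ ℚ_[2])) ^ 2 * P.map (algebraMap ℚ ℚ_[2])) :=
    pl_sq _ h6
  rw [← Polynomial.map_pow, ← Polynomial.map_mul] at h7
  exact N951.PV.pl_congr (cast_congr hc ℚ_[2] (e1.trans hh'.symm)) h7

theorem aeval_pol {L : Type} [Field L] [CharZero L] (θ : L) (g₁ g₂ : ℤ) (r s t : ℚ) :
    aeval θ (pol ℚ g₁ g₂ r s t) = 1 + 2 * ((g₁ : L) * θ + (g₂ : L) * θ ^ 2) +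
      4 * ((r : L) + (s : L) * θ + (t : L) * θ ^ 2) := by
  unfold pol
  simp

theorem pol_mul {L : Type} [Field L] [CharZero L] {a b : ℤ} {θ : L}
    (hr : θ ^ 3 + (a : L) * θ + (b : L) = 0) (g₁ g₂ g₁' g₂' : ℤ) (R s t R' s' t' : ℚ) :
    aeval θ (pol ℚ g₁ g₂ R s t) * aeval θ (pol ℚ g₁' g₂' R' s' t') =
    aeval θ (pol ℚ (g₁ + g₁') (g₂ + g₂')
      (R + R' - b * (g₁ * g₂' + g₂ * g₁') + 2 * (-b * (g₁ * t' + g₂ * s') - b * (g₁' * t + g₂' * s)) +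
        4 * (R * R' - b * (s * t' + t * s')))
      (s + s' + (-a * (g₁ * g₂' + g₂ * g₁') - b * g₂ * g₂') +
        2 * ((g₁ * R' - a * (g₁ * t' + g₂ * s') - b * g₂ * t') +
          (g₁' * R - a * (g₁' * t + g₂' * s) - b * g₂' * t)) +
        4 * (R * s' + s * R' - a * (s * t' + t * s') - b * t * t'))
      (t + t' + (g₁ * g₁' - a * g₂ * g₂') +
        2 * ((g₁ * s' + g₂ * R' - a * g₂ * t') + (g₁' * s + g₂' * R - a * g₂' * t)) +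
        4 * (R * t' + s * s' + t * R' - a * t * t'))) := by
  rw [aeval_pol, aeval_pol, aeval_pol]
  push_cast
  linear_combination (4 * ((g₁ : L) * g₂' + g₂ * g₁' + g₂ * g₂' * θ) +
    8 * ((g₁ : L) * t' + g₂ * s' + g₂ * t' * θ + (g₁' * t + g₂' * s + g₂' * t * θ)) +
    16 * ((s : L) * t' + t * s' + t * t' * θ)) * hr

theorem cl_mul {a g₁ g₂ g₁' g₂' : ℤ} (ha : Odd a) (h : ¬ Cl a g₁ g₂) (h' : ¬ Cl a g₁' g₂') :
    Cl a (g₁ + g₁') (g₂ + g₂') := by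
  obtain ⟨k, rfl⟩ := ha
  unfold Cl at *
  simp only [Int.even_iff] at *
  omega

theorem l2i : Pool.Agent.H62.PR.S_L2I := by
  intro L _ _ a b θ hc hz hab x y hx hy hNx hNy hLx hLy
  have h2 := Pool.Agent.N907.PV.t_NF2
  have hb : Odd b := by
    rw [← Int.not_even_iff_odd]
    intro he
    apply hz 0
    rw [even_iff_two_dvd] at he
    simpa using he
  have ha : Odd a := by
    obtain ⟨k, hk⟩ := hb
    obtain ⟨l, hl⟩ := hab
    exact ⟨k + 2 * l, by omega⟩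
  obtain ⟨c, g₁, g₂, r, s, t, hc0, hr, hs, ht, hα⟩ := h2 L a b θ hc ha hb x hx hNx
  obtain ⟨c', g₁', g₂', r', s', t', hc0', hr', hs', ht', hα'⟩ := h2 L a b θ hc ha hb y hy hNy
  obtain ⟨zr, hzr⟩ := exists_int r hr
  obtain ⟨zs, hzs⟩ := exists_int s hs
  obtain ⟨zt, hzt⟩ := exists_int t ht
  obtain ⟨zr', hzr'⟩ := exists_int r' hr'
  obtain ⟨zs', hzs'⟩ := exists_int s' hs'
  obtain ⟨zt', hzt'⟩ := exists_int t' ht'
  have n1 : ¬ Cl a g₁ g₂ := by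
    intro h
    apply hLx
    exact loc2_of hc ha hab x c g₁ g₂ _ s t zr zs zt (by rw [hzr]; push_cast; ring) hzs.symm
      hzt.symm hα h
  have n2 : ¬ Cl a g₁' g₂' := by
    intro h
    apply hLy
    exact loc2_of hc ha hab y c' g₁' g₂' _ s' t' zr' zs' zt' (by rw [hzr']; push_cast; ring)
      hzs'.symm hzt'.symm hα' h
  have n3 := cl_mul ha n1 n2
  obtain ⟨b', hb'⟩ := hb
  obtain ⟨R, hR⟩ : ∃ R : ℚ, R = ((g₁ * (1 + g₂) : ℤ) : ℚ) + 2 * r := ⟨_, rfl⟩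
  obtain ⟨R', hR'⟩ : ∃ R' : ℚ, R' = ((g₁' * (1 + g₂') : ℤ) : ℚ) + 2 * r' := ⟨_, rfl⟩
  obtain ⟨zR, hzR⟩ : ∃ z : ℤ_[2], z = g₁ * (1 + g₂) + 2 * zr := ⟨_, rfl⟩
  obtain ⟨zR', hzR'⟩ : ∃ z : ℤ_[2], z = g₁' * (1 + g₂') + 2 * zr' := ⟨_, rfl⟩
  have cR : (R : ℚ_[2]) = zR := by rw [hR, hzR]; push_cast; rw [c2, hzr]
  have cR' : (R' : ℚ_[2]) = zR' := by rw [hR', hzR']; push_cast; rw [c2, hzr']
  refine loc2_of hc ha hab (x * y) (c * c') (g₁ + g₁') (g₂ + g₂') _ _ _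
    (zr + zr' - (b' + 1) * (g₁ * g₂' + g₂ * g₁') +
      (-b * (g₁ * zt' + g₂ * zs') - b * (g₁' * zt + g₂' * zs)) + 2 * (zR * zR' - b * (zs * zt' + zt * zs')))
    (zs + zs' + (-a * (g₁ * g₂' + g₂ * g₁') - b * g₂ * g₂') +
        2 * ((g₁ * zR' - a * (g₁ * zt' + g₂ * zs') - b * g₂ * zt') +
          (g₁' * zR - a * (g₁' * zt + g₂' * zs) - b * g₂' * zt)) +
        4 * (zR * zs' + zs * zR' - a * (zs * zt' + zt * zs') - b * zt * zt'))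
    (zt + zt' + (g₁ * g₁' - a * g₂ * g₂') +
        2 * ((g₁ * zs' + g₂ * zR' - a * g₂ * zt') + (g₁' * zs + g₂' * zR - a * g₂' * zt)) +
        4 * (zR * zt' + zs * zs' + zt * zR' - a * zt * zt')) ?_ ?_ ?_
    (by
      rw [hα, hα', ← hR, ← hR', mul_mul_mul_comm, ← mul_pow, pol_mul hc.root]) n3
  · have hbb : (b : ℚ_[2]) = 2 * b' + 1 := by rw [hb']; push_cast; ring
    push_cast
    rw [cR, cR', ← hzs, ← hzt, ← hzs', ← hzt', hbb, c2]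
    have e1 : (zR : ℚ_[2]) = g₁ * (1 + g₂) + 2 * zr := by rw [hzR]; push_cast; rw [c2]
    have e2 : (zR' : ℚ_[2]) = g₁' * (1 + g₂') + 2 * zr' := by rw [hzR']; push_cast; rw [c2]
    linear_combination e1 + e2
  · push_cast
    rw [cR, cR', ← hzs, ← hzt, ← hzs', ← hzt', c2, c4]
  · push_cast
    rw [cR, cR', ← hzs, ← hzt, ← hzs', ← hzt', c2, c4]

end Pool.Agent.H88.PR
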